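import Mathlib

namespace Pool.Agent.Results.MP_3b52ff_co.Hider

open Finset

/-- The position after `n` turns of the run in which Seeker picks `q i` and Hider answers `c i`
(`true` = green, `false` = red) at turn `i`. -/
def hist (q : ℕ → Sym2 ℕ) (c : ℕ → Bool) : ℕ → List (Sym2 ℕ × Bool)
  | 0 => []
  | n + 1 => (q n, c n) :: hist q c n

/-- Green pairs at the end of the run. -/
def green (q : ℕ → Sym2 ℕ) (c : ℕ → Bool) : Set (Sym2 ℕ) := {e | ∃ n, q n = e ∧ c n = true}

/-- White pairs at the end of the run. -/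
def white (q : ℕ → Sym2 ℕ) : Set (Sym2 ℕ) := {e | ¬ e.IsDiag ∧ ∀ n, q n ≠ e}

/-- Seeker wins the run of the game `G(S)`. -/
def SeekerWins (S : Set (Set (Sym2 ℕ))) (q : ℕ → Sym2 ℕ) (c : ℕ → Bool) : Prop :=
  (white q).Nonempty ∧
    ((∀ H, green q c ⊆ H → H ⊆ green q c ∪ white q → H ∈ S) ∨
     (∀ H, green q c ⊆ H → H ⊆ green q c ∪ white q → H ∉ S))

/-- `S` is `∞`-elusive: no legal strategy of Seeker wins every run that follows it. -/
def InfElusive (S : Set (Set (Sym2 ℕ))) : Prop :=
  ¬ ∃ s : List (Sym2 ℕ × Bool) → Sym2 ℕ,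
    (∀ h, ¬ (s h).IsDiag ∧ s h ∉ h.map Prod.fst) ∧
    ∀ q c, (∀ n, q n = s (hist q c n)) → SeekerWins S q c

/-- Hider has a winning strategy in `G(S)`. -/
def HiderWinsGame (S : Set (Set (Sym2 ℕ))) : Prop :=
  ∃ t : List (Sym2 ℕ × Bool) → Sym2 ℕ → Bool,
    ∀ q c, (∀ n, ¬ (q n).IsDiag) → Function.Injective q →
      (∀ n, c n = t (hist q c n) (q n)) → ¬ SeekerWins S q c

/-- Every vertex has degree at least `k`. -/
def MinDeg (k : ℕ) : Set (Set (Sym2 ℕ)) := {H | ∀ v : ℕ, (k : ℕ∞) ≤ {e ∈ H | v ∈ e}.encard}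

theorem mem_hist (q : ℕ → Sym2 ℕ) (c : ℕ → Bool) (n : ℕ) (e : Sym2 ℕ) :
    e ∈ (hist q c n).map Prod.fst ↔ ∃ i < n, q i = e := by
  induction n with
  | zero => simp [hist]
  | succ n ih =>
    simp only [hist, List.map_cons, List.mem_cons, ih]
    constructor
    · rintro (h | ⟨i, hi, h⟩)
      · exact ⟨n, by omega, h.symm⟩
      · exact ⟨i, by omega, h⟩
    · rintro ⟨i, hi, h⟩
      rcases Nat.lt_succ_iff_lt_or_eq.1 hi with h' | rfl
      · exact Or.inr ⟨i, h', h⟩
      · exact Or.inl h.symm

theorem elusive_of_hider (S : Set (Set (Sym2 ℕ))) (h : HiderWinsGame S) : InfElusive S := by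
  obtain ⟨t, ht⟩ := h
  rintro ⟨s, hs, hwin⟩
  let H : ℕ → List (Sym2 ℕ × Bool) := fun n =>
    Nat.rec [] (fun _ h => (s h, t h (s h)) :: h) n
  let q : ℕ → Sym2 ℕ := fun n => s (H n)
  let c : ℕ → Bool := fun n => t (H n) (s (H n))
  have hH : ∀ n, hist q c n = H n := by
    intro n
    induction n with
    | zero => rfl
    | succ n ih => rw [hist, ih]
  have hq : ∀ n, q n = s (hist q c n) := fun n => by rw [hH]
  refine ht q c (fun n => (hs _).1) ?_ (fun n => by rw [hH]) (hwin q c hq)
  have key : ∀ i j, i < j → q i ≠ q j := by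
    intro i j hij h
    have := (hs (hist q c j)).2
    rw [← hq, mem_hist] at this
    exact this ⟨i, hij, h⟩
  intro i j hij
  rcases lt_trichotomy i j with h | h | h
  · exact absurd hij (key i j h)
  · exact h
  · exact absurd hij.symm (key j i h)

def dg (h : List (Sym2 ℕ × Bool)) (v : ℕ) : ℕ := (h.filter fun x => x.2 = true ∧ v ∈ x.1).length

def up (h : List (Sym2 ℕ × Bool)) (v : ℕ) : ℕ :=
  ((range v).filter fun u => s(u, v) ∉ h.map Prod.fst).card

open Classical in
noncomputable def tau (k : ℕ) (h : List (Sym2 ℕ × Bool)) (e : Sym2 ℕ) : Bool :=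
  decide (∃ v w, e = s(v, w) ∧ v < w ∧ (Nat.unpair w).1 = v ∧ dg h v + up h v < k)

def DD (q : ℕ → Sym2 ℕ) (c : ℕ → Bool) (n v : ℕ) : Finset ℕ :=
  (range n).filter fun i => c i = true ∧ v ∈ q i

def UU (q : ℕ → Sym2 ℕ) (n v : ℕ) : Finset ℕ :=
  (range v).filter fun u => ∀ i < n, q i ≠ s(u, v)

theorem dg_hist (q : ℕ → Sym2 ℕ) (c : ℕ → Bool) (n v : ℕ) :
    dg (hist q c n) v = (DD q c n v).card := by
  induction n with
  | zero => simp [dg, hist, DD]
  | succ n ih =>
    unfold dg DD at *
    rw [hist, List.filter_cons, range_add_one, filter_insert]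
    by_cases h : c n = true ∧ v ∈ q n
    · rw [if_pos (by simpa using h), if_pos h, card_insert_of_notMem (by simp), List.length_cons, ih]
    · rw [if_neg (by simpa using h), if_neg h, ih]

theorem up_hist (q : ℕ → Sym2 ℕ) (c : ℕ → Bool) (n v : ℕ) :
    up (hist q c n) v = (UU q n v).card := by
  unfold up UU
  congr 1
  ext u
  simp only [mem_filter, mem_hist]
  push Not
  rfl

section

variable {k : ℕ} {q : ℕ → Sym2 ℕ} {c : ℕ → Bool}

theorem rule (hc : ∀ n, c n = tau k (hist q c n) (q n)) (n : ℕ) :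
    c n = true ↔ ∃ v w, q n = s(v, w) ∧ v < w ∧ (Nat.unpair w).1 = v ∧
      (DD q c n v).card + (UU q n v).card < k := by
  rw [hc n, tau]
  simp only [decide_eq_true_eq, dg_hist, up_hist]

theorem UU_anti (n w : ℕ) : UU q (n + 1) w ⊆ UU q n w := by
  intro u hu
  simp only [UU, mem_filter] at hu ⊢
  exact ⟨hu.1, fun i hi => hu.2 i (by omega)⟩

theorem inv (hq : Function.Injective q) (hc : ∀ n, c n = tau k (hist q c n) (q n)) (w n : ℕ) :
    (∀ i ∈ DD q c n w, q i = s((Nat.unpair w).1, w)) ∨
      (DD q c n w).card + (UU q n w).card ≤ k := by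
  induction n with
  | zero => left; simp [DD]
  | succ n ih =>
    have hU := card_le_card (UU_anti (q := q) n w)
    by_cases h : c n = true ∧ w ∈ q n
    · have hD : DD q c (n + 1) w = insert n (DD q c n w) := by
        unfold DD; rw [range_add_one, filter_insert, if_pos h]
      have hDc : (DD q c (n + 1) w).card = (DD q c n w).card + 1 := by
        rw [hD, card_insert_of_notMem (by simp [DD])]
      obtain ⟨a, b, h1, h2, h3, h4⟩ := (rule hc n).1 h.1
      have h5 := h.2
      rw [h1, Sym2.mem_iff] at h5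
      rcases h5 with rfl | rfl
      · right; omega
      · rcases ih with ih | ih
        · left
          intro i hi
          rw [hD, mem_insert] at hi
          rcases hi with rfl | hi
          · rw [h1, h3]
          · exact ih i hi
        · right
          have : (UU q (n + 1) w).card < (UU q n w).card := by
            refine card_lt_card ⟨UU_anti n w, fun hs => ?_⟩
            have h6 : a ∈ UU q n w := by
              simp only [UU, mem_filter, mem_range]
              refine ⟨h2, fun i hi he => ?_⟩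
              have := hq (he.trans h1.symm)
              omega
            exact (mem_filter.1 (hs h6)).2 n (by omega) h1
          omega
    · have hD : DD q c (n + 1) w = DD q c n w := by
        unfold DD; rw [range_add_one, filter_insert, if_neg h]
      rw [hD]
      rcases ih with ih | ih
      · exact Or.inl ih
      · right; omega

theorem notMin (hk : 2 ≤ k) (hq : Function.Injective q)
    (hc : ∀ n, c n = tau k (hist q c n) (q n)) (hW : (white q).Nonempty) :
    green q c ∉ MinDeg k := by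
  obtain ⟨e, he1, he2⟩ := hW
  obtain ⟨v, w, rfl, hvw⟩ : ∃ v w, e = s(v, w) ∧ v < w := by
    induction e using Sym2.ind with
    | _ a b =>
      have : a ≠ b := by simpa using he1
      rcases lt_or_gt_of_ne this with h | h
      · exact ⟨a, b, rfl, h⟩
      · exact ⟨b, a, Sym2.eq_swap, h⟩
  have hb : ∀ n, (DD q c n w).card < k := by
    intro n
    rcases inv hq hc w n with h | h
    · have : (DD q c n w).card ≤ 1 :=
        card_le_one.2 fun a ha b hb => hq ((h a ha).trans (h b hb).symm)
      omega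
    · have : 0 < (UU q n w).card :=
        card_pos.2 ⟨v, mem_filter.2 ⟨mem_range.2 hvw, fun i _ => he2 i⟩⟩
      omega
  intro hmin
  have h1 := hmin w
  have h2 : {e ∈ green q c | w ∈ e} = q '' {i | c i = true ∧ w ∈ q i} := by
    ext e
    simp only [green, Set.mem_setOf_eq, Set.mem_image]
    constructor
    · rintro ⟨⟨n, rfl, h⟩, h'⟩; exact ⟨n, ⟨h, h'⟩, rfl⟩
    · rintro ⟨n, ⟨h, h'⟩, rfl⟩; exact ⟨⟨n, rfl, h⟩, h'⟩
  rw [h2, hq.encard_image] at h1
  obtain ⟨t, ht, htc⟩ := Set.exists_subset_encard_eq h1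
  have hfin : t.Finite := Set.finite_of_encard_eq_coe htc
  lift t to Finset ℕ using hfin
  rw [Set.encard_coe_eq_coe_finsetCard] at htc
  have h3 : t.card = k := by exact_mod_cast htc
  have h4 : t ⊆ DD q c (t.sup id + 1) w := by
    intro i hi
    have : i ≤ t.sup id := Finset.le_sup (f := id) hi
    exact mem_filter.2 ⟨mem_range.2 (by omega), ht hi⟩
  have := card_le_card h4
  have := hb (t.sup id + 1)
  omega

theorem isMin (hq : Function.Injective q) (hc : ∀ n, c n = tau k (hist q c n) (q n)) :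
    green q c ∪ white q ∈ MinDeg k := by
  classical
  intro v
  by_contra hlt
  push Not at hlt
  have hfin : {e ∈ green q c ∪ white q | v ∈ e}.Finite :=
    Set.encard_lt_top_iff.1 (hlt.trans (ENat.coe_lt_top k))
  set T := hfin.toFinset with hT
  have hTc : T.card < k := by
    rw [hfin.encard_eq_coe_toFinset_card] at hlt
    exact_mod_cast hlt
  have hmem : ∀ e, e ∈ T ↔ e ∈ green q c ∪ white q ∧ v ∈ e := fun e => by
    rw [hT, Set.Finite.mem_toFinset]; rfl
  obtain ⟨N, hN⟩ : ∃ N, ∀ u < v, ∀ i, q i = s(u, v) → i < N := by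
    have : {i | ∃ u < v, q i = s(u, v)}.Finite := by
      refine Set.Finite.of_finite_image (f := q) ?_ hq.injOn
      refine ((Set.finite_lt_nat v).image fun u => s(u, v)).subset ?_
      rintro _ ⟨i, ⟨u, hu, h⟩, rfl⟩
      exact ⟨u, hu, h.symm⟩
    obtain ⟨N, hN⟩ := this.bddAbove
    exact ⟨N + 1, fun u hu i hi => Nat.lt_succ_of_le (hN ⟨u, hu, hi⟩)⟩
  have hneed : ∀ n, N ≤ n → (DD q c n v).card + (UU q n v).card < k := by
    intro n hn
    have hw : ∀ u ∈ UU q n v, s(u, v) ∈ white q := by
      intro u hu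
      obtain ⟨h1, h2⟩ := mem_filter.1 hu
      have h1' := mem_range.1 h1
      refine ⟨by simp; omega, fun i hi => ?_⟩
      have := hN u h1' i hi
      exact h2 i (by omega) hi
    have h1 : ((DD q c n v).image q).card = (DD q c n v).card := card_image_of_injective _ hq
    have h2 : ((UU q n v).image fun u => s(u, v)).card = (UU q n v).card :=
      card_image_of_injective _ fun a b h => Sym2.congr_left.1 h
    have h3 : Disjoint ((DD q c n v).image q) ((UU q n v).image fun u => s(u, v)) := by
      rw [Finset.disjoint_left]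
      intro e he he'
      obtain ⟨i, _, rfl⟩ := mem_image.1 he
      obtain ⟨u, hu, h⟩ := mem_image.1 he'
      exact (hw u hu).2 i h.symm
    have h4 : (DD q c n v).image q ∪ (UU q n v).image (fun u => s(u, v)) ⊆ T := by
      intro e he
      rw [hmem]
      rcases mem_union.1 he with he | he
      · obtain ⟨i, hi, rfl⟩ := mem_image.1 he
        obtain ⟨_, h5, h6⟩ := mem_filter.1 hi
        exact ⟨Or.inl ⟨i, rfl, h5⟩, h6⟩
      · obtain ⟨u, hu, rfl⟩ := mem_image.1 he
        exact ⟨Or.inr (hw u hu), by simp⟩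
    have h5 := card_le_card h4
    rw [card_union_of_disjoint h3] at h5
    omega
  have hinj : Function.Injective fun m : ℕ => s(v, Nat.pair v (v + 1 + m)) := by
    intro a b h
    have := Nat.pair_eq_pair.1 (Sym2.congr_right.1 h)
    omega
  obtain ⟨m, hm⟩ : ∃ m : ℕ, s(v, Nat.pair v (v + 1 + m)) ∉ T ∪ (range N).image q := by
    by_contra hcon
    push Not at hcon
    exact Set.infinite_range_of_injective hinj ((T ∪ (range N).image q).finite_toSet.subset (by
      rintro _ ⟨m, rfl⟩; exact hcon m))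
  have hlt' : v < Nat.pair v (v + 1 + m) := by
    have := Nat.right_le_pair v (v + 1 + m); omega
  rw [mem_union, not_or, hmem] at hm
  obtain ⟨n, hn⟩ : ∃ n, q n = s(v, Nat.pair v (v + 1 + m)) := by
    by_contra hcon
    push Not at hcon
    exact hm.1 ⟨Or.inr ⟨by simp; omega, hcon⟩, by simp⟩
  have hNn : N ≤ n := by
    by_contra hcon
    exact hm.2 (mem_image.2 ⟨n, mem_range.2 (by omega), hn⟩)
  have hg : c n = true := (rule hc n).2 ⟨v, _, hn, hlt', by simp, hneed n hNn⟩
  exact hm.1 ⟨Or.inl ⟨n, hn, hg⟩, by simp⟩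

end

theorem result (k : ℕ) (hk : 2 ≤ k) : HiderWinsGame (MinDeg k) ∧ InfElusive (MinDeg k) := by
  have h : HiderWinsGame (MinDeg k) := by
    refine ⟨tau k, fun q c _ hq hc => ?_⟩
    rintro ⟨hW, h | h⟩
    · exact notMin hk hq hc hW (h _ subset_rfl Set.subset_union_left)
    · exact h _ Set.subset_union_left subset_rfl (isMin hq hc)
  exact ⟨h, elusive_of_hider _ h⟩

end Pool.Agent.Results.MP_3b52ff_co.Hider
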